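import Mathlib
import Pool.Agent.Helper11_PGL.StmtB

/-!
# Module BBR: residues of quotients of combinations of algebraic power series
-/

open PGH Polynomial
open scoped IntermediateField

universe u

set_option linter.unusedSectionVars false

namespace PGL20

/-- some multiple of an algebraic element by a nonzero element of the base is integral -/
theorem exists_mul_mem {𝓕 : Type*} [Field 𝓕] (U : ValuationSubring 𝓕) (L : Subfield 𝓕) (y : 𝓕)
    (hy : IsAlgebraic L y) : ∃ a ∈ L, a ≠ 0 ∧ a * y ∈ U := by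
  by_contra hcon
  push Not at hcon
  have hv : ∀ a ∈ L, a ≠ 0 → 1 < U.valuation (a * y) := fun a ha h0 =>
    not_le.1 (fun h => hcon a ha h0 ((U.valuation_le_one_iff _).1 h))
  have hy1 : 1 < U.valuation y := by simpa using hv 1 L.one_mem one_ne_zero
  obtain ⟨p, hp0, hp⟩ := hy
  rw [Polynomial.aeval_eq_sum_range, Finset.sum_range_succ] at hp
  have hc : (p.coeff p.natDegree : L) ≠ 0 := by
    rw [Polynomial.coeff_natDegree]; exact Polynomial.leadingCoeff_ne_zero.2 hp0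
  have hc' : ((p.coeff p.natDegree : L) : 𝓕) ≠ 0 := fun h => hc (Subtype.ext h)
  have hy0 : y ≠ 0 := by
    rintro rfl
    simp at hy1
  have hlt : U.valuation (∑ i ∈ Finset.range p.natDegree, p.coeff i • y ^ i) <
      U.valuation (p.coeff p.natDegree • y ^ p.natDegree) := by
    apply Valuation.map_sum_lt
    · rw [Valuation.ne_zero_iff]
      rw [Subfield.smul_def]
      exact smul_ne_zero hc' (pow_ne_zero _ hy0)
    · intro i hi
      rw [Finset.mem_range] at hi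
      rw [Subfield.smul_def, Subfield.smul_def, smul_eq_mul, smul_eq_mul, map_mul, map_mul,
        map_pow, map_pow]
      by_cases hpi : ((p.coeff i : L) : 𝓕) = 0
      · rw [hpi, map_zero, zero_mul]
        exact zero_lt_iff.2 (mul_ne_zero ((Valuation.ne_zero_iff _).2 hc')
          (pow_ne_zero _ ((Valuation.ne_zero_iff _).2 hy0)))
      · have h1 := hv (((p.coeff p.natDegree : L) : 𝓕) / ((p.coeff i : L) : 𝓕))
          (L.div_mem (p.coeff p.natDegree).2 (p.coeff i).2) (div_ne_zero hc' hpi)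
        have hpos : 0 < U.valuation ((p.coeff i : L) : 𝓕) :=
          zero_lt_iff.2 ((Valuation.ne_zero_iff _).2 hpi)
        have h2 : U.valuation ((p.coeff i : L) : 𝓕) <
            U.valuation ((p.coeff p.natDegree : L) : 𝓕) * U.valuation y := by
          rw [map_mul, map_div₀, div_mul_eq_mul_div, lt_div_iff₀ hpos, one_mul] at h1
          exact h1
        have hyi : 0 < U.valuation y ^ i := pow_pos (zero_lt_one.trans hy1) i
        calc U.valuation ((p.coeff i : L) : 𝓕) * U.valuation y ^ i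
            < (U.valuation ((p.coeff p.natDegree : L) : 𝓕) * U.valuation y) *
              U.valuation y ^ i := mul_lt_mul_of_pos_right h2 hyi
          _ = U.valuation ((p.coeff p.natDegree : L) : 𝓕) * U.valuation y ^ (i + 1) := by
              rw [pow_succ', mul_assoc]
          _ ≤ U.valuation ((p.coeff p.natDegree : L) : 𝓕) * U.valuation y ^ p.natDegree :=
              mul_le_mul_right (pow_le_pow_right₀ hy1.le hi) _
  have heq : U.valuation (∑ i ∈ Finset.range p.natDegree, p.coeff i • y ^ i) =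
      U.valuation (p.coeff p.natDegree • y ^ p.natDegree) := by
    rw [eq_neg_of_add_eq_zero_left hp, Valuation.map_neg]
  exact absurd heq hlt.ne


theorem mul_nonunits {𝓕 : Type*} [Field 𝓕] {U : ValuationSubring 𝓕} {a s : 𝓕} (ha : a ∈ U)
    (hs : s ∈ U.nonunits) : a * s ∈ U.nonunits := by
  rw [ValuationSubring.mem_nonunits_iff] at hs ⊢
  rw [map_mul]
  exact lt_of_le_of_lt (mul_le_of_le_one_left' ((U.valuation_le_one_iff a).2 ha)) hs

theorem one_sub_inv_mem {𝓕 : Type*} [Field 𝓕] {U : ValuationSubring 𝓕} {s : 𝓕}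
    (hs : s ∈ U.nonunits) : 1 - s ≠ 0 ∧ (1 - s)⁻¹ ∈ U := by
  rw [ValuationSubring.mem_nonunits_iff] at hs
  have h := Valuation.map_one_sub_of_lt _ hs
  constructor
  · intro h0
    rw [h0, map_zero] at h
    exact zero_ne_one h
  · rw [← U.valuation_le_one_iff, map_inv₀, h, inv_one]

theorem aeval_mem {k 𝓕 : Type*} [Field k] [Field 𝓕] [Algebra k 𝓕] {U : ValuationSubring 𝓕}
    (hU : ∀ c : k, algebraMap k 𝓕 c ∈ U) {z : 𝓕} (hz : z ∈ U) (q : k[X]) : aeval z q ∈ U := by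
  rw [Polynomial.aeval_eq_sum_range]
  refine sum_mem fun i _ => ?_
  rw [Algebra.smul_def]
  exact mul_mem (hU _) (pow_mem hz _)

section main

variable {k Ω 𝓕 : Type u} [Field k] [IsAlgClosed k] [Field Ω] [IsAlgClosed Ω] [Algebra k Ω]
  [Field 𝓕] [Algebra (PowerSeries Ω) 𝓕] [Algebra Ω 𝓕] [Algebra k 𝓕] [IsScalarTower k Ω 𝓕]
  [IsScalarTower Ω (PowerSeries Ω) 𝓕]

theorem algebraMap_C (w : Ω) : algebraMap (PowerSeries Ω) 𝓕 (PowerSeries.C w) =
    algebraMap Ω 𝓕 w := by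
  rw [IsScalarTower.algebraMap_apply Ω (PowerSeries Ω) 𝓕 w, PowerSeries.algebraMap_apply]
  rfl

theorem uval_mem {V : ValuationSubring Ω} {U : ValuationSubring 𝓕} (h : PGL.UVal V U)
    (w : Ω) (hw : w ∈ V) : algebraMap Ω 𝓕 w ∈ U := by
  rw [← algebraMap_C]
  refine h.mem _ fun j => ?_
  rw [PowerSeries.coeff_C]
  split_ifs
  · exact hw
  · exact V.zero_mem

theorem uval_nonunits {V : ValuationSubring Ω} {U : ValuationSubring 𝓕} (h : PGL.UVal V U)
    (w : Ω) (hw : w ∈ V.nonunits) : algebraMap Ω 𝓕 w ∈ U.nonunits := by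
  rw [← algebraMap_C]
  refine h.small _ (fun j => ?_) ?_
  · rw [PowerSeries.coeff_C]
    split_ifs
    · exact ValuationSubring.nonunits_subset hw
    · exact V.zero_mem
  · simpa using hw

theorem uval_const {V : ValuationSubring Ω} {U : ValuationSubring 𝓕} (hV : PGL.ResVal k V)
    (h : PGL.UVal V U) (c : k) : algebraMap k 𝓕 c ∈ U := by
  rw [IsScalarTower.algebraMap_apply k Ω 𝓕]
  exact uval_mem h _ (hV.const c)

/-- the map from power series over `k` -/
noncomputable def psi (k Ω 𝓕 : Type u) [Field k] [Field Ω] [Algebra k Ω]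
    [Field 𝓕] [Algebra (PowerSeries Ω) 𝓕] : PowerSeries k →+* 𝓕 :=
  (algebraMap (PowerSeries Ω) 𝓕).comp (PowerSeries.map (algebraMap k Ω))

theorem psi_mem {V : ValuationSubring Ω} {U : ValuationSubring 𝓕} (hV : PGL.ResVal k V)
    (h : PGL.UVal V U) (w : PowerSeries k) : psi k Ω 𝓕 w ∈ U := by
  refine h.mem _ fun j => ?_
  rw [PowerSeries.coeff_map]
  exact hV.const _

theorem psi_injective (hinj : Function.Injective (algebraMap (PowerSeries Ω) 𝓕)) :
    Function.Injective (psi k Ω 𝓕) := by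
  refine hinj.comp ?_
  exact PowerSeries.map_injective _ (algebraMap k Ω).injective

theorem psi_coe (p : k[X]) : psi k Ω 𝓕 (p : PowerSeries k) =
    aeval (algebraMap (PowerSeries Ω) 𝓕 PowerSeries.X) p := by
  have h : (psi k Ω 𝓕).comp (Polynomial.coeToPowerSeries.ringHom) =
      (aeval (algebraMap (PowerSeries Ω) 𝓕 PowerSeries.X) : k[X] →ₐ[k] 𝓕).toRingHom := by
    apply Polynomial.ringHom_ext
    · intro a
      simp only [RingHom.comp_apply, Polynomial.coeToPowerSeries.ringHom_apply,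
        Polynomial.coe_C, AlgHom.toRingHom_eq_coe, RingHom.coe_coe, aeval_C]
      simp only [psi, RingHom.comp_apply, PowerSeries.map_C]
      rw [algebraMap_C, ← IsScalarTower.algebraMap_apply]
    · simp [psi]
  exact congrArg (fun f => f p) h


/-- powers of `X` are eventually smaller than any nonzero algebraic element -/
theorem arch' {V : ValuationSubring Ω} {U : ValuationSubring 𝓕} (hV : PGL.ResVal k V)
    (hU : PGL.UVal V U)
    (hgen : ∀ g ∈ Ω⟮algebraMap (PowerSeries Ω) 𝓕 PowerSeries.X⟯, g ≠ 0 → ∃ e : Ω, e ≠ 0 ∧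
      g / algebraMap Ω 𝓕 e ∈ U ∧ algebraMap Ω 𝓕 e / g ∈ U)
    (hX : algebraMap (PowerSeries Ω) 𝓕 PowerSeries.X ≠ 0)
    (β : 𝓕) (hβ : β ≠ 0)
    (halg : IsAlgebraic (Ω⟮algebraMap (PowerSeries Ω) 𝓕 PowerSeries.X⟯).toSubfield β) :
    ∃ M : ℕ, ∀ m ≥ M, algebraMap (PowerSeries Ω) 𝓕 PowerSeries.X ^ m / β ∈ U.nonunits := by
  set X₀ := algebraMap (PowerSeries Ω) 𝓕 PowerSeries.X with hX₀
  have hXsmall : X₀ ∈ U.nonunits := by
    refine hU.small _ (fun j => ?_) ?_
    · rw [PowerSeries.coeff_X]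
      split_ifs
      · exact V.one_mem
      · exact V.zero_mem
    · simp
  obtain ⟨a, haL, ha0, hab⟩ := exists_mul_mem U (Ω⟮X₀⟯).toSubfield β⁻¹ halg.inv
  obtain ⟨e, he0, he1, he2⟩ := hgen a haL ha0
  obtain ⟨d, hd0, hd1, hd2⟩ := hgen X₀ (IntermediateField.mem_adjoin_simple_self Ω X₀) hX
  have hd : d ∈ V.nonunits := by
    rw [ValuationSubring.mem_nonunits_iff_or]
    right
    intro hcon
    have h1 : algebraMap Ω 𝓕 d⁻¹ ∈ U := uval_mem hU _ hcon
    have h2 : X₀⁻¹ ∈ U := by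
      have h3 := mul_mem hd2 h1
      have h4 : algebraMap Ω 𝓕 d / X₀ * algebraMap Ω 𝓕 d⁻¹ = X₀⁻¹ := by
        rw [map_inv₀]
        have : algebraMap Ω 𝓕 d ≠ 0 := by simpa using hd0
        field_simp
      rwa [h4] at h3
    rw [ValuationSubring.mem_nonunits_iff_or] at hXsmall
    rcases hXsmall with h | h
    · exact hX h
    · exact h h2
  obtain ⟨n, hn⟩ := hV.arch d hd e he0
  refine ⟨n + 1, fun m hm => ?_⟩
  obtain ⟨r, rfl⟩ := Nat.exists_eq_add_of_le hm
  have hn' : algebraMap Ω 𝓕 (d ^ n * e⁻¹) ∈ U := uval_mem hU _ hn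
  have hd' : algebraMap Ω 𝓕 d ≠ 0 := by simpa using hd0
  have he' : algebraMap Ω 𝓕 e ≠ 0 := by simpa using he0
  have key : X₀ ^ (n + 1 + r) / β = (X₀ ^ r * ((X₀ / algebraMap Ω 𝓕 d) ^ n *
      algebraMap Ω 𝓕 (d ^ n * e⁻¹) * (algebraMap Ω 𝓕 e / a) * (a * β⁻¹))) * X₀ := by
    have h0 : (X₀ / algebraMap Ω 𝓕 d) ^ n * algebraMap Ω 𝓕 d ^ n = X₀ ^ n := by
      rw [← mul_pow, div_mul_cancel₀ _ hd']
    rw [map_mul, map_pow, map_inv₀, pow_add, pow_add, ← h0]
    field_simp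
  rw [key]
  refine mul_nonunits ?_ hXsmall
  exact mul_mem (pow_mem (ValuationSubring.nonunits_subset hXsmall) _)
    (mul_mem (mul_mem (mul_mem (pow_mem hd1 _) hn') he2) hab)

/-- images of algebraic power series are algebraic -/
theorem isAlgebraic_psi (hinj : Function.Injective (algebraMap (PowerSeries Ω) 𝓕))
    (w : PowerSeries k) (hw : IsAlgebraic k[X] w) :
    IsAlgebraic (Ω⟮algebraMap (PowerSeries Ω) 𝓕 PowerSeries.X⟯).toSubfield (psi k Ω 𝓕 w) := by
  have hmem : ∀ p : k[X], (psi k Ω 𝓕) (p : PowerSeries k) ∈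
      (Ω⟮algebraMap (PowerSeries Ω) 𝓕 PowerSeries.X⟯).toSubfield := by
    intro p
    rw [psi_coe, Polynomial.aeval_eq_sum_range]
    refine sum_mem fun i _ => ?_
    rw [Algebra.smul_def, IsScalarTower.algebraMap_apply k Ω 𝓕]
    exact mul_mem (IntermediateField.algebraMap_mem _ _)
      (pow_mem (IntermediateField.mem_adjoin_simple_self Ω _) _)
  let f : k[X] →+* (Ω⟮algebraMap (PowerSeries Ω) 𝓕 PowerSeries.X⟯).toSubfield :=
    ((psi k Ω 𝓕).comp (Polynomial.coeToPowerSeries.ringHom)).codRestrict _ hmem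
  refine IsAlgebraic.ringHom_of_comp_eq f (psi k Ω 𝓕) hw ?_ ?_
  · intro p q hpq
    have h1 : psi k Ω 𝓕 (p : PowerSeries k) = psi k Ω 𝓕 (q : PowerSeries k) :=
      congrArg Subtype.val hpq
    exact Polynomial.coe_injective k (psi_injective hinj h1)
  · refine RingHom.ext fun p => ?_
    have h1 : algebraMap k[X] (PowerSeries k) p = (p : PowerSeries k) := by
      rw [PowerSeries.algebraMap_apply', Algebra.algebraMap_self, PowerSeries.map_id]
      rfl
    change psi k Ω 𝓕 (p : PowerSeries k) = psi k Ω 𝓕 (algebraMap k[X] (PowerSeries k) p)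
    rw [h1]


theorem isAlgebraic_comb (hinj : Function.Injective (algebraMap (PowerSeries Ω) 𝓕)) {n : ℕ}
    (w : Fin n → PowerSeries k) (hw : ∀ i, IsAlgebraic k[X] (w i)) (b : Fin n → Ω) :
    IsAlgebraic (Ω⟮algebraMap (PowerSeries Ω) 𝓕 PowerSeries.X⟯).toSubfield
      (∑ i, algebraMap Ω 𝓕 (b i) * psi k Ω 𝓕 (w i)) := by
  refine IsIntegral.isAlgebraic (IsIntegral.sum _ fun i _ => ?_)
  refine IsIntegral.mul ?_ (isAlgebraic_psi hinj _ (hw i)).isIntegral
  exact isIntegral_algebraMap (x := (⟨algebraMap Ω 𝓕 (b i),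
    IntermediateField.algebraMap_mem _ _⟩ :
    (Ω⟮algebraMap (PowerSeries Ω) 𝓕 PowerSeries.X⟯).toSubfield))

theorem comb_eq {n : ℕ} (b : Fin n → Ω) (w : Fin n → PowerSeries k) :
    algebraMap (PowerSeries Ω) 𝓕
      (∑ i, PowerSeries.C (b i) * PowerSeries.map (algebraMap k Ω) (w i)) =
      ∑ i, algebraMap Ω 𝓕 (b i) * psi k Ω 𝓕 (w i) := by
  rw [map_sum]
  refine Finset.sum_congr rfl fun i _ => ?_
  rw [map_mul, algebraMap_C]
  rfl

theorem trunc_eq (w : PowerSeries k) (m : ℕ) :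
    psi k Ω 𝓕 w = algebraMap (PowerSeries Ω) 𝓕 PowerSeries.X ^ m *
      psi k Ω 𝓕 (PowerSeries.mk fun i => PowerSeries.coeff (i + m) w) +
      aeval (algebraMap (PowerSeries Ω) 𝓕 PowerSeries.X) (PowerSeries.trunc m w) := by
  conv_lhs => rw [PowerSeries.eq_X_pow_mul_shift_add_trunc m w]
  rw [map_add, map_mul, map_pow, psi_coe]
  simp [psi]

end main

theorem bbr (hres : PGL.ResAlgStmt.{u}) (hbbg : PGL.BBGStmt.{u}) : PGL.BBRStmt.{u} := by
  intro k Ω 𝓕 _ _ _ _ _ _ _ _ _ _ _ V U ι _ g hV hinj hU hgU hrat hex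
  classical
  set X₀ := algebraMap (PowerSeries Ω) 𝓕 PowerSeries.X with hX₀
  have hX0 : X₀ ≠ 0 := by
    rw [hX₀]
    intro h
    rw [← map_zero (algebraMap (PowerSeries Ω) 𝓕)] at h
    exact PowerSeries.X_ne_zero (hinj h)
  obtain ⟨i₀, hi₀⟩ := hex
  -- the elements of the family are algebraic
  have halg : ∀ i, IsAlgebraic (Ω⟮X₀⟯).toSubfield (algebraMap _ 𝓕 (g i)) := by
    intro i
    obtain ⟨n, α, β, w, hw, hβ, heq⟩ := hrat i
    have h1 := isAlgebraic_comb (𝓕 := 𝓕) hinj w hw α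
    have h2 := isAlgebraic_comb (𝓕 := 𝓕) hinj w hw β
    have h3 := congrArg (algebraMap (PowerSeries Ω) 𝓕) heq
    rw [map_mul, comb_eq, comb_eq] at h3
    have h4 : ∑ i, algebraMap Ω 𝓕 (β i) * psi k Ω 𝓕 (w i) ≠ 0 := by
      rw [← comb_eq]
      intro h
      rw [← map_zero (algebraMap (PowerSeries Ω) 𝓕)] at h
      exact hβ (hinj h)
    have h5 : algebraMap _ 𝓕 (g i) = (∑ i, algebraMap Ω 𝓕 (α i) * psi k Ω 𝓕 (w i)) *
        (∑ i, algebraMap Ω 𝓕 (β i) * psi k Ω 𝓕 (w i))⁻¹ := by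
      rw [← h3]
      field_simp
    rw [h5]
    exact h1.mul h2.inv
  -- an element of the rational function field with residue outside `k`
  have hex' : ∃ f ∈ Ω⟮X₀⟯, f ∈ U ∧ ∀ c : k, f - algebraMap k 𝓕 c ∉ U.nonunits := by
    by_contra hcon
    push Not at hcon
    obtain ⟨c, hc⟩ := hres k 𝓕 U (Ω⟮X₀⟯).toSubfield (algebraMap _ 𝓕 (g i₀))
      (fun f hf hfU => hcon f hf hfU) (uval_const hV hU) (halg i₀) (hgU i₀)
    exact hi₀ c hc
  obtain ⟨f₀, hf₀L, hf₀U, hf₀⟩ := hex'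
  obtain ⟨c, d, z, hd, -, hzU, hz, hgen, hrep⟩ := hbbg k Ω 𝓕 V U hV (fun w hw => uval_mem hU w hw)
    (fun w hw => uval_nonunits hU w hw) X₀ f₀ hf₀L hf₀U hf₀
  refine ⟨z, hzU, hz, fun i => ?_⟩
  obtain ⟨n, α, β, w, hw, hβ, heq⟩ := hrat i
  set G := algebraMap (PowerSeries Ω) 𝓕 (g i) with hG
  set A := ∑ i, algebraMap Ω 𝓕 (α i) * psi k Ω 𝓕 (w i) with hA
  set B := ∑ i, algebraMap Ω 𝓕 (β i) * psi k Ω 𝓕 (w i) with hB
  have hBalg : IsAlgebraic (Ω⟮X₀⟯).toSubfield B := isAlgebraic_comb hinj w hw β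
  have hBG : B * G = A := by
    have h3 := congrArg (algebraMap (PowerSeries Ω) 𝓕) heq
    rwa [map_mul, comb_eq, comb_eq] at h3
  have hB0 : B ≠ 0 := by
    rw [hB, ← comb_eq]
    intro h
    rw [← map_zero (algebraMap (PowerSeries Ω) 𝓕)] at h
    exact hβ (hinj h)
  have hsmall : ∀ e : Ω, ∀ᶠ m in Filter.atTop, X₀ ^ m * (algebraMap Ω 𝓕 e / B) ∈ U.nonunits := by
    intro e
    by_cases he : e = 0
    · refine Filter.Eventually.of_forall fun m => ?_
      rw [he, map_zero, zero_div, mul_zero]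
      exact U.nonunits.zero_mem
    · have he' : algebraMap Ω 𝓕 e ≠ 0 := by simpa using he
      obtain ⟨M, hM⟩ := arch' hV hU hgen hX0 (B * (algebraMap Ω 𝓕 e)⁻¹)
        (mul_ne_zero hB0 (inv_ne_zero he')) (hBalg.mul (IsIntegral.isAlgebraic
          (isIntegral_algebraMap (x := (⟨algebraMap Ω 𝓕 e,
            IntermediateField.algebraMap_mem _ _⟩ : (Ω⟮X₀⟯).toSubfield)))).inv)
      refine Filter.eventually_atTop.2 ⟨M, fun m hm => ?_⟩
      have h1 := hM m hm
      have h2 : X₀ ^ m * (algebraMap Ω 𝓕 e / B) = X₀ ^ m / (B * (algebraMap Ω 𝓕 e)⁻¹) := by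
        field_simp
      rw [h2]
      exact h1
  obtain ⟨m, hm1, hm2⟩ := ((Filter.eventually_all.2 fun j => hsmall (β j)).and
    (Filter.eventually_all.2 fun j => hsmall (α j))).exists
  -- truncations
  set s := ∑ j, (X₀ ^ m * (algebraMap Ω 𝓕 (β j) / B)) *
    psi k Ω 𝓕 (PowerSeries.mk fun i => PowerSeries.coeff (i + m) (w j)) with hs
  set s' := ∑ j, (X₀ ^ m * (algebraMap Ω 𝓕 (α j) / B)) *
    psi k Ω 𝓕 (PowerSeries.mk fun i => PowerSeries.coeff (i + m) (w j)) with hs'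
  have hsU : s ∈ U.nonunits := by
    refine sum_mem fun j _ => ?_
    rw [mul_comm]
    exact mul_nonunits (psi_mem hV hU _) (hm1 j)
  have hs'U : s' ∈ U.nonunits := by
    refine sum_mem fun j _ => ?_
    rw [mul_comm]
    exact mul_nonunits (psi_mem hV hU _) (hm2 j)
  set At := ∑ j, algebraMap Ω 𝓕 (α j) * aeval X₀ (PowerSeries.trunc m (w j)) with hAt
  set Bt := ∑ j, algebraMap Ω 𝓕 (β j) * aeval X₀ (PowerSeries.trunc m (w j)) with hBt
  have hAt' : At = B * (G - s') := by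
    rw [mul_sub, hBG, hs', Finset.mul_sum, hA, hAt, eq_sub_iff_add_eq, ← Finset.sum_add_distrib]
    refine Finset.sum_congr rfl fun j _ => ?_
    rw [trunc_eq (𝓕 := 𝓕) (Ω := Ω) (w j) m, ← hX₀]
    field_simp
    ring
  have hBt' : Bt = B * (1 - s) := by
    rw [mul_sub, mul_one, hs, Finset.mul_sum, eq_sub_iff_add_eq, hBt, ← Finset.sum_add_distrib]
    conv_rhs => rw [hB]
    refine Finset.sum_congr rfl fun j _ => ?_
    rw [trunc_eq (𝓕 := 𝓕) (Ω := Ω) (w j) m, ← hX₀]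
    field_simp
    ring
  have hmemL : ∀ p : k[X], aeval X₀ p ∈ Ω⟮X₀⟯ := by
    intro p
    rw [Polynomial.aeval_eq_sum_range]
    refine sum_mem fun i _ => ?_
    rw [Algebra.smul_def, IsScalarTower.algebraMap_apply k Ω 𝓕]
    exact mul_mem (IntermediateField.algebraMap_mem _ _)
      (pow_mem (IntermediateField.mem_adjoin_simple_self Ω _) _)
  have hAtL : At ∈ Ω⟮X₀⟯ := sum_mem fun j _ =>
    mul_mem (IntermediateField.algebraMap_mem _ _) (hmemL _)
  have hBtL : Bt ∈ Ω⟮X₀⟯ := sum_mem fun j _ =>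
    mul_mem (IntermediateField.algebraMap_mem _ _) (hmemL _)
  obtain ⟨hs1, hs2⟩ := one_sub_inv_mem hsU
  have hdiff : G - At / Bt ∈ U.nonunits := by
    have h1 : G - At / Bt = (1 - s)⁻¹ * (s' - G * s) := by
      rw [hAt', hBt']
      field_simp
      ring
    rw [h1]
    exact mul_nonunits hs2 (U.nonunits.sub_mem hs'U (mul_nonunits (hgU i) hsU))
  have hfU : At / Bt ∈ U := by
    have h1 : At / Bt = G - (G - At / Bt) := by ring
    rw [h1]
    exact sub_mem (hgU i) (ValuationSubring.nonunits_subset hdiff)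
  obtain ⟨p, q, hq, hpq⟩ := hrep (At / Bt) (div_mem hAtL hBtL) hfU
  refine ⟨p, q, hq, ?_⟩
  have h1 : G * aeval z q - aeval z p =
      aeval z q * (G - At / Bt) + (At / Bt * aeval z q - aeval z p) := by ring
  rw [h1]
  exact U.nonunits.add_mem (mul_nonunits (aeval_mem (uval_const hV hU) hzU q) hdiff) hpq

end PGL20
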