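import Mathlib
import Pool.Agent.Helper11_PGL.StmtB
import Pool.Agent.Helper20_PGL.BBR

/-!
# Module BBMAIN: infinitely many pointed homomorphisms of bounded height give a homomorphism to a
field of rational functions
-/

open PGH Polynomial
open scoped IntermediateField

universe u

set_option linter.unusedSectionVars false

namespace PGL20

theorem adjoin_gen_eq_top {k κ : Type*} [Field k] [Field κ] [Algebra k κ] (z : κ) :
    k⟮IntermediateField.AdjoinSimple.gen k z⟯ = (⊤ : IntermediateField k k⟮z⟯) := by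
  have hinj : Function.Injective (IntermediateField.map (k⟮z⟯).val) :=
    IntermediateField.map_injective _
  apply hinj
  rw [IntermediateField.adjoin_map, ← AlgHom.fieldRange_eq_map, IntermediateField.fieldRange_val]
  simp

theorem transcendental_of_forall_ne {k κ : Type*} [Field k] [IsAlgClosed k] [Field κ]
    [Algebra k κ] (z : κ) (hz : ∀ c : k, z ≠ algebraMap k κ c) : Transcendental k z := by
  intro hcon
  have h1 := IsAlgClosed.degree_eq_one_of_irreducible k (minpoly.irreducible hcon.isIntegral)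
  obtain ⟨c, hc⟩ := minpoly.mem_range_of_degree_eq_one k z h1
  exact hz c hc.symm

theorem residue_hom {k R 𝓕 : Type u} [Field k] [IsAlgClosed k] [CommRing R] [Algebra k R]
    [Field 𝓕] [Algebra k 𝓕] (U : ValuationSubring 𝓕) (hU : ∀ c : k, algebraMap k 𝓕 c ∈ U)
    (Θ : R →ₐ[k] 𝓕) (A₀ F₁ : Set R) (hgen : GenBy k A₀) (hΘ : ∀ r, Θ r ∈ U) (z : 𝓕) (hz : z ∈ U)
    (hz' : ∀ c : k, z - algebraMap k 𝓕 c ∉ U.nonunits)
    (hA : ∀ a ∈ A₀, ∃ p q : k[X], q ≠ 0 ∧ Θ a * aeval z q - aeval z p ∈ U.nonunits)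
    (hex : ∃ a ∈ A₀, ∀ c : k, Θ a - algebraMap k 𝓕 c ∉ U.nonunits)
    (hF : ∀ t ∈ F₁, ∃ c : k, Θ t - algebraMap k 𝓕 c ∈ U.nonunits) :
    ∃ (E : Type u) (_ : Field E) (_ : Algebra k E) (z : E) (φ : R →ₐ[k] E),
      Transcendental k z ∧ k⟮z⟯ = ⊤ ∧ (∃ a ∈ A₀, ∀ c : k, φ a ≠ algebraMap k E c) ∧
      ∀ t ∈ F₁, ∃ c : k, φ t = algebraMap k E c := by
  let j : k →+* U := (algebraMap k 𝓕).codRestrict U hU
  let algU : Algebra k U := j.toAlgebra
  let κ := IsLocalRing.ResidueField U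
  let Θ' : R →ₐ[k] U :=
    { (Θ.toRingHom.codRestrict U hΘ) with
      commutes' := fun c => Subtype.ext (Θ.commutes c) }
  let res : U →ₐ[k] κ := IsScalarTower.toAlgHom k U κ
  have hres : ∀ x : U, res x = 0 ↔ (x : 𝓕) ∈ U.nonunits := by
    intro x
    rw [ValuationSubring.coe_mem_nonunits_iff]
    exact IsLocalRing.residue_eq_zero_iff x
  let Φ : R →ₐ[k] κ := res.comp Θ'
  have hΦ : ∀ r (y : U), Φ r = res y ↔ Θ r - y ∈ U.nonunits := by
    intro r y
    rw [← sub_eq_zero]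
    change res (Θ' r) - res y = 0 ↔ _
    rw [← map_sub, hres]
    rfl
  let zU : U := ⟨z, hz⟩
  let zb : κ := res zU
  let incl : U →ₐ[k] 𝓕 := { U.subtype with commutes' := fun c => rfl }
  have hincl : ∀ q : k[X], ((aeval zU q : U) : 𝓕) = aeval z q := fun q =>
    (Polynomial.aeval_algHom_apply incl zU q).symm
  have hzb : ∀ q : k[X], res (aeval zU q) = aeval zb q := fun q =>
    (Polynomial.aeval_algHom_apply res zU q).symm
  have hrc : ∀ c : k, res (algebraMap k U c) = algebraMap k κ c := fun c => res.commutes c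
  have hcoe : ∀ c : k, ((algebraMap k U c : U) : 𝓕) = algebraMap k 𝓕 c := fun c => rfl
  have htr : Transcendental k zb := by
    refine transcendental_of_forall_ne zb fun c hc => hz' c ?_
    rw [← hrc, ← sub_eq_zero] at hc
    change res zU - _ = 0 at hc
    rw [← map_sub, hres] at hc
    exact hc
  have hmemA : ∀ a ∈ A₀, Φ a ∈ k⟮zb⟯ := by
    intro a ha
    obtain ⟨p, q, hq, hpq⟩ := hA a ha
    have h1 : Φ a * aeval zb q = aeval zb p := by
      rw [← hzb, ← hzb]
      change res (Θ' a) * _ = _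
      rw [← map_mul, ← sub_eq_zero, ← map_sub, hres]
      change Θ a * ((aeval zU q : U) : 𝓕) - ((aeval zU p : U) : 𝓕) ∈ U.nonunits
      rw [hincl, hincl]
      exact hpq
    have h2 : aeval zb q ≠ 0 := fun h => hq ((_root_.transcendental_iff.1 htr) q h)
    have h3 : Φ a = aeval zb p / aeval zb q := by
      rw [eq_div_iff h2, h1]
    rw [h3]
    have h4 : ∀ q : k[X], aeval zb q ∈ k⟮zb⟯ := by
      intro q
      rw [Polynomial.aeval_eq_sum_range]
      refine sum_mem fun i _ => ?_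
      rw [Algebra.smul_def]
      exact mul_mem (IntermediateField.algebraMap_mem _ _)
        (pow_mem (IntermediateField.mem_adjoin_simple_self k _) _)
    exact div_mem (h4 p) (h4 q)
  obtain ⟨d, hd, d', hdd', htop⟩ := hgen
  have hmemAd : ∀ r ∈ Algebra.adjoin k A₀, Φ r ∈ k⟮zb⟯ := by
    intro r hr
    have h1 : Algebra.adjoin k A₀ ≤ (k⟮zb⟯).toSubalgebra.comap Φ :=
      Algebra.adjoin_le fun a ha => hmemA a ha
    exact h1 hr
  have hd' : Φ d' ∈ k⟮zb⟯ := by
    have h1 : Φ d * Φ d' = 1 := by rw [← map_mul, hdd', map_one]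
    have h2 : Φ d' = (Φ d)⁻¹ := eq_inv_of_mul_eq_one_right h1
    rw [h2]
    exact inv_mem (hmemAd d hd)
  have hmem : ∀ r, Φ r ∈ (k⟮zb⟯).toSubalgebra := by
    intro r
    have h1 : Algebra.adjoin k (A₀ ∪ {d'}) ≤ (k⟮zb⟯).toSubalgebra.comap Φ := by
      refine Algebra.adjoin_le ?_
      rintro a (ha | ha)
      · exact hmemA a ha
      · rw [Set.mem_singleton_iff] at ha
        subst ha
        exact hd'
    have h2 : r ∈ Algebra.adjoin k (A₀ ∪ {d'}) := by rw [htop]; trivial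
    exact h1 h2
  let φ : R →ₐ[k] k⟮zb⟯ := Φ.codRestrict (k⟮zb⟯).toSubalgebra hmem
  refine ⟨k⟮zb⟯, inferInstance, inferInstance, IntermediateField.AdjoinSimple.gen k zb, φ,
    ?_, adjoin_gen_eq_top zb, ?_, ?_⟩
  · intro halg
    apply htr
    have h1 := IsAlgebraic.algebraMap (A := κ) halg
    exact h1
  · obtain ⟨a, ha, hac⟩ := hex
    refine ⟨a, ha, fun c hc => hac c ?_⟩
    have h1 : Φ a = algebraMap k κ c := congrArg Subtype.val hc
    rw [← hrc, hΦ] at h1
    exact h1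
  · intro t ht
    obtain ⟨c, hc⟩ := hF t ht
    refine ⟨c, Subtype.ext ?_⟩
    change Φ t = algebraMap k κ c
    rw [← hrc, hΦ]
    exact hc


theorem exists_scale {Ω : Type*} [Field Ω] (V : ValuationSubring Ω) (s : Finset Ω) :
    ∃ e : Ω, e ≠ 0 ∧ ∀ x ∈ s, e * x ∈ V := by
  classical
  induction s using Finset.induction_on with
  | empty => exact ⟨1, one_ne_zero, by simp⟩
  | insert a s ha ih =>
    obtain ⟨e, he, hes⟩ := ih
    rcases V.mem_or_inv_mem (e * a) with h | h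
    · refine ⟨e, he, fun x hx => ?_⟩
      rcases Finset.mem_insert.1 hx with rfl | hx
      · exact h
      · exact hes x hx
    · by_cases ha0 : a = 0
      · refine ⟨e, he, fun x hx => ?_⟩
        rcases Finset.mem_insert.1 hx with rfl | hx
        · rw [ha0, mul_zero]
          exact V.zero_mem
        · exact hes x hx
      · refine ⟨e * (e * a)⁻¹, mul_ne_zero he (inv_ne_zero (mul_ne_zero he ha0)), fun x hx => ?_⟩
        rcases Finset.mem_insert.1 hx with rfl | hx
        · have h1 : e * (e * x)⁻¹ * x = 1 := by field_simp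
          rw [h1]
          exact V.one_mem
        · have h1 : e * (e * a)⁻¹ * x = (e * a)⁻¹ * (e * x) := by ring
          rw [h1]
          exact mul_mem h (hes x hx)

theorem coeff_comb_mem {k Ω : Type*} [Field k] [Field Ω] [Algebra k Ω] (V : ValuationSubring Ω)
    (hV : ∀ c : k, algebraMap k Ω c ∈ V) {n : ℕ} (b : Fin n → Ω) (hb : ∀ i, b i ∈ V)
    (w : Fin n → PowerSeries k) (j : ℕ) :
    PowerSeries.coeff j
      (∑ i, PowerSeries.C (b i) * PowerSeries.map (algebraMap k Ω) (w i)) ∈ V := by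
  rw [map_sum]
  refine sum_mem fun i _ => ?_
  rw [PowerSeries.coeff_C_mul, PowerSeries.coeff_map]
  exact mul_mem (hb i) (hV _)

theorem scale_rat {k Ω : Type*} [Field k] [Field Ω] [Algebra k Ω] (V : ValuationSubring Ω)
    (hV : ∀ c : k, algebraMap k Ω c ∈ V) (g : PowerSeries Ω) (hg : PGL.RatOver k Ω g) :
    ∃ α β : PowerSeries Ω, (∀ j, PowerSeries.coeff j α ∈ V) ∧
      (∀ j, PowerSeries.coeff j β ∈ V) ∧ β ≠ 0 ∧ β * g = α := by
  classical
  obtain ⟨n, α, β, w, hw, hβ, heq⟩ := hg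
  obtain ⟨e, he, hes⟩ := exists_scale V (Finset.univ.image α ∪ Finset.univ.image β)
  have h1 : ∀ i, e * α i ∈ V := fun i => hes _ (Finset.mem_union_left _
    (Finset.mem_image_of_mem _ (Finset.mem_univ i)))
  have h2 : ∀ i, e * β i ∈ V := fun i => hes _ (Finset.mem_union_right _
    (Finset.mem_image_of_mem _ (Finset.mem_univ i)))
  have h3 : ∀ b : Fin n → Ω, ∑ i, PowerSeries.C (e * b i) * PowerSeries.map (algebraMap k Ω) (w i) =
      PowerSeries.C e * ∑ i, PowerSeries.C (b i) * PowerSeries.map (algebraMap k Ω) (w i) := by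
    intro b
    rw [Finset.mul_sum]
    refine Finset.sum_congr rfl fun i _ => ?_
    rw [map_mul, mul_assoc]
  refine ⟨∑ i, PowerSeries.C (e * α i) * PowerSeries.map (algebraMap k Ω) (w i),
    ∑ i, PowerSeries.C (e * β i) * PowerSeries.map (algebraMap k Ω) (w i),
    coeff_comb_mem V hV _ h1 w, coeff_comb_mem V hV _ h2 w, ?_, ?_⟩
  · rw [h3]
    refine mul_ne_zero ?_ hβ
    intro h
    apply he
    have := congrArg PowerSeries.constantCoeff h
    simpa using this
  · rw [h3, h3, mul_assoc, heq]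

theorem bbmain (hultra : PGL.UltraFamStmt.{u}) (hdesc : PGL.DescStmt.{u})
    (hspec : PGL.SpecFamStmt.{u}) (hbba : PGL.BBAStmt.{u}) (hbbr : PGL.BBRStmt.{u}) :
    PGL.BBMainStmt.{u} := by
  intro k K R _ _ _ _ _ _ _ _ A₀ F₁ P₀ x₀ B ψ hfin hgen hinf
  obtain ⟨Ψ₁, hΨ₁⟩ := hultra k K R A₀ F₁ P₀ x₀ B ψ hfin hgen hinf
  obtain ⟨O, _, _, _, _, Ψ₂, hΨ₂⟩ := hdesc k (Lst k) R A₀ F₁ x₀ Ψ₁ hfin hgen hΨ₁
  obtain ⟨Ω, _, _, _, V, Ψ, hV, hΨ, a₁, ha₁, j₁, hj₁⟩ := hspec k O R A₀ F₁ x₀ Ψ₂ hfin hΨ₂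
  classical
  let 𝓕 := FractionRing (PowerSeries Ω)
  have hinj : Function.Injective (algebraMap (PowerSeries Ω) 𝓕) :=
    IsFractionRing.injective (PowerSeries Ω) 𝓕
  let e := hfin.toFinset.equivFin
  let f : Fin hfin.toFinset.card → R := fun i => (e.symm i : R)
  have hfA : ∀ i, f i ∈ A₀ := fun i => (Set.Finite.mem_toFinset hfin).1 (e.symm i).2
  have hAf : ∀ a ∈ A₀, ∃ i, f i = a := by
    intro a ha
    refine ⟨e ⟨a, (Set.Finite.mem_toFinset hfin).2 ha⟩, ?_⟩
    simp [f]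
  have hrange : Set.range f = A₀ := by
    ext a
    exact ⟨fun ⟨i, hi⟩ => hi ▸ hfA i, fun ha => hAf a ha⟩
  obtain ⟨U, hUV, hgU, hgex, hunit⟩ := hbba k Ω 𝓕 V (Fin hfin.toFinset.card)
    (fun i => Ψ (f i)) (fun i => x₀ (f i)) hV hinj (fun i => hΨ.const (f i))
    (fun i => scale_rat V hV.const _ (hΨ.rat _ (hfA i))) (by
      obtain ⟨i, hi⟩ := hAf a₁ ha₁
      exact ⟨i, j₁, by rw [hi]; exact hj₁⟩)
  obtain ⟨z, hzU, hz, hrep⟩ := hbbr k Ω 𝓕 V U (Fin hfin.toFinset.card)
    (fun i => Ψ (f i)) hV hinj hUV hgU (fun i => hΨ.rat _ (hfA i)) (by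
      obtain ⟨i, hi⟩ := hgex
      refine ⟨i, fun c => ?_⟩
      have h1 := hi c
      rw [map_sub, algebraMap_C, ← IsScalarTower.algebraMap_apply k Ω 𝓕] at h1
      exact h1)
  have hUc : ∀ c : k, algebraMap k 𝓕 c ∈ U := uval_const hV hUV
  let Θ : R →ₐ[k] 𝓕 := (IsScalarTower.toAlgHom k (PowerSeries Ω) 𝓕).comp Ψ
  have hΘdef : ∀ r, Θ r = algebraMap (PowerSeries Ω) 𝓕 (Ψ r) := fun r => rfl
  let Uk : Subalgebra k 𝓕 := { U.toSubring with algebraMap_mem' := hUc }
  have hUk : ∀ x, x ∈ Uk ↔ x ∈ U := fun x => Iff.rfl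
  have hΘA : ∀ a ∈ A₀, Θ a ∈ U := by
    intro a ha
    obtain ⟨i, rfl⟩ := hAf a ha
    exact hgU i
  have hgen' := hgen
  obtain ⟨d, hd, d', hdd', htop⟩ := hgen
  have hΘd : Θ d ∉ U.nonunits := by
    rw [← hrange, Algebra.adjoin_range_eq_range_aeval] at hd
    obtain ⟨p, rfl⟩ := hd
    have h1 : MvPolynomial.eval (fun i => x₀ (f i)) p ≠ 0 := by
      have h2 : MvPolynomial.eval (fun i => x₀ (f i)) p = x₀ (MvPolynomial.aeval f p) := by
        rw [← MvPolynomial.aeval_eq_eval, MvPolynomial.comp_aeval_apply]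
      rw [h2]
      intro h0
      have h3 := congrArg x₀ hdd'
      rw [map_mul, map_one] at h3
      have h4 : x₀ (MvPolynomial.aeval f p) = 0 := h0
      have h5 : x₀ ((MvPolynomial.aeval f) p) * x₀ d' = 1 := h3
      rw [h4, zero_mul] at h5
      exact zero_ne_one h5
    have h2 := hunit p h1
    have h3 : MvPolynomial.aeval (fun i => Ψ (f i)) p = Ψ (MvPolynomial.aeval f p) := by
      rw [MvPolynomial.comp_aeval_apply]
    rw [h3] at h2
    exact h2
  have hΘd' : Θ d' ∈ U := by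
    rw [ValuationSubring.mem_nonunits_iff_or, not_or, not_not] at hΘd
    have h1 : Θ d * Θ d' = 1 := by rw [← map_mul, hdd', map_one]
    rw [eq_inv_of_mul_eq_one_right h1]
    exact hΘd.2
  have hΘ : ∀ r, Θ r ∈ U := by
    intro r
    have h1 : Algebra.adjoin k (A₀ ∪ {d'}) ≤ Uk.comap Θ := by
      refine Algebra.adjoin_le ?_
      rintro a (ha | ha)
      · exact hΘA a ha
      · rw [Set.mem_singleton_iff] at ha
        subst ha
        exact hΘd'
    have h2 : r ∈ Algebra.adjoin k (A₀ ∪ {d'}) := by rw [htop]; trivial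
    exact h1 h2
  refine residue_hom U hUc Θ A₀ F₁ hgen' hΘ z hzU hz ?_ ?_ ?_
  · intro a ha
    obtain ⟨i, rfl⟩ := hAf a ha
    exact hrep i
  · obtain ⟨i, hi⟩ := hgex
    refine ⟨f i, hfA i, fun c => ?_⟩
    have h1 := hi c
    rw [map_sub, algebraMap_C, ← IsScalarTower.algebraMap_apply k Ω 𝓕] at h1
    exact h1
  · intro t ht
    obtain ⟨w, hw⟩ := hΨ.base t ht
    refine ⟨PowerSeries.constantCoeff w, ?_⟩
    have h1 : Θ t - algebraMap k 𝓕 (PowerSeries.constantCoeff w) =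
        algebraMap (PowerSeries Ω) 𝓕 (PowerSeries.map (algebraMap k Ω)
          (w - PowerSeries.C (PowerSeries.constantCoeff w))) := by
      rw [hΘdef, hw, map_sub, map_sub, PowerSeries.map_C, algebraMap_C,
        ← IsScalarTower.algebraMap_apply k Ω 𝓕]
    rw [h1]
    refine hUV.small _ (fun j => ?_) ?_
    · rw [PowerSeries.coeff_map]
      exact hV.const _
    · have h2 : PowerSeries.constantCoeff (PowerSeries.map (algebraMap k Ω)
          (w - PowerSeries.C (PowerSeries.constantCoeff w))) = 0 := by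
        rw [← PowerSeries.coeff_zero_eq_constantCoeff_apply, PowerSeries.coeff_map]
        simp
      rw [h2]
      exact V.nonunits.zero_mem

end PGL20
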